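import Pool.Agent.R617.LR.Graphs
import Pool.Agent.R617.LR.Upper

set_option autoImplicit false

/-!
# MP_ddf912_lc: reductions from CLIQUE to log-SAT of low degree

Turing reductions whose output bits (is the clause in the formula?) are found by adaptively evaluating
polynomials over a field, of low total degree and with few values, in the adjacency bits. The
reductions are random, but have to accept all graphs with a clique.
-/

namespace Pool.Agent.Results.MP_ddf912_lc.LowDegreeReductions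

open Pool.Agent.R617.LR Pool.Agent.R562.QH Finset Filter

/-- the exact problem -/
lemma exact_bound {K : Type} [Field K] {n k q D Q v d : ℕ} {Ω : Type}
    (A : Ω → Reduction K (Pairs n) v d) (hk : 2 ≤ k) (hkn : k ≤ n)
    (hA : ∀ ω, (A ω).Bounded q D Q) (h : OneSided k k A) :
    (n - k + 2).choose 2 ≤ (q - 1) * (Q * (2 * v + 1) ^ d * D) := by
  obtain ⟨u, rfl⟩ : ∃ u, k = u + 2 := ⟨k - 2, by omega⟩
  obtain ⟨ω, hω⟩ := h.2 _ (join_free (n := n) (u := u))
  have h1 := main q D Q (A ω) (hA ω) (join n u) (joinIdx n u)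
    (fun i l z z' => join_dep i l z z') hω
    (fun z l hl => h.1 ω _ (join_clique z l hl))
  have h2 : n - (u + 2) + 2 = n - u := by omega
  rw [h2]
  exact (card_pairs_ge n u).trans h1

/-- the problem with a gap -/
lemma gap_bound {K : Type} [Field K] {n s k q D Q v d : ℕ} {Ω : Type}
    (A : Ω → Reduction K (Pairs n) v d) (hk : 2 ≤ k) (hs : 1 ≤ s) (hsn : 2 * s ^ 2 ≤ n)
    (hA : ∀ ω, (A ω).Bounded q D Q) (h : OneSided s k A) :
    n ^ 2 < 4 * s ^ 2 * ((q - 1) * (Q * (2 * v + 1) ^ d * D)) := by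
  have hs2 : 0 < 2 * s := by omega
  have h0 : s ≤ n / (2 * s) := by
    rw [Nat.le_div_iff_mul_le hs2]
    calc s * (2 * s) = 2 * s ^ 2 := by ring
      _ ≤ n := hsn
  obtain ⟨p, hp, h1, h2⟩ := Nat.exists_prime_lt_and_le_two_mul (n / (2 * s)) (by omega)
  have : Fact p.Prime := ⟨hp⟩
  have h3 : s * p ≤ n := by
    calc s * p ≤ s * (2 * (n / (2 * s))) := Nat.mul_le_mul_left _ h2
      _ = (2 * s) * (n / (2 * s)) := by ring
      _ ≤ n := Nat.mul_div_le _ _
  have h4 : n < 2 * s * p := by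
    have h5 := Nat.lt_mul_div_succ n hs2
    exact lt_of_lt_of_le h5 (Nat.mul_le_mul_left _ h1)
  have hsp : s ≤ p := by omega
  obtain ⟨ω, hω⟩ := h.2 _ (empty_free (n := n) hk)
  have h5 := main q D Q (A ω) (hA ω) (lines n s p) (lineIdx n s p)
    (fun i l z z' => lines_dep hsp i l z z') (by rw [lines_empty]; exact hω)
    (fun z l hl => h.1 ω _ (lines_clique h3 z l hl))
  rw [Fintype.card_prod, ZMod.card] at h5
  calc n ^ 2 < (2 * s * p) ^ 2 := Nat.pow_lt_pow_left h4 (by norm_num)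
    _ = 4 * s ^ 2 * (p * p) := by ring
    _ ≤ _ := Nat.mul_le_mul_left _ h5

/-- **Reductions of low degree.** -/
theorem result :
    (∀ (K : Type) [Field K] (n k q D Q v d : ℕ) (Ω : Type) (A : Ω → Reduction K (Pairs n) v d),
      2 ≤ k → k ≤ n → (∀ ω, (A ω).Bounded q D Q) → OneSided k k A →
      (n - k + 2).choose 2 ≤ (q - 1) * (Q * (2 * v + 1) ^ d * D)) ∧
    (∀ (K : Type) [Field K] (n s k q D Q v d : ℕ) (Ω : Type) (A : Ω → Reduction K (Pairs n) v d),
      2 ≤ k → 1 ≤ s → 2 * s ^ 2 ≤ n → (∀ ω, (A ω).Bounded q D Q) → OneSided s k A →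
      n ^ 2 < 4 * s ^ 2 * ((q - 1) * (Q * (2 * v + 1) ^ d * D))) ∧
    (∀ ε : ℝ, 0 < ε → ∀ q d F G c : ℕ, ∀ᶠ n : ℕ in atTop, ∀ (K : Type) [Field K] (s k D Q v : ℕ)
      (Ω : Type) (A : Ω → Reduction K (Pairs n) v d),
      2 ≤ k → 1 ≤ s → 2 * s ^ 2 ≤ n → v ≤ G * (Nat.log 2 (F * n ^ c) + 1) →
      (∀ ω, (A ω).Bounded q D Q) → OneSided s k A → (n : ℝ) ^ (2 - ε) ≤ s ^ 2 * (Q * D)) ∧
    (∀ (K : Type) [Field K] [Fintype K] (n k t v d : ℕ),
      ∃ (Ω : Type) (_ : Fintype Ω) (_ : Nonempty Ω) (A : Ω → Reduction K (Pairs n) v d),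
        (∀ ω, (A ω).Bounded (Fintype.card K) (k.choose 2) t) ∧
        (∀ ω x, (graph x).CliqueFree k → (A ω).eval x = false) ∧
        ∀ x, ¬ (graph x).CliqueFree k →
          Fintype.card K ^ t * Nat.card {ω // (A ω).eval x = false} ≤ Nat.card Ω) ∧
    (∀ (K : Type) [Field K] (n v d : ℕ) (P : (Pairs n → Bool) → Bool),
      ∃ A : Reduction K (Pairs n) v d, A.Bounded 2 1 (n.choose 2) ∧ ∀ x, A.eval x = P x) := by
  refine ⟨fun K _ n k q D Q v d Ω A hk hkn hA h => exact_bound A hk hkn hA h,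
    fun K _ n s k q D Q v d Ω A hk hs hsn hA h => gap_bound A hk hs hsn hA h, ?_,
    fun K _ _ n k t v d => exists_random K n k t v d,
    fun K _ n v d P => exists_all K n v d P⟩
  intro ε hε q d F G c
  filter_upwards [few_clauses ε hε d F G c (4 * ((q - 1 : ℕ) : ℝ)), eventually_ge_atTop 1]
    with n hn hn1
  intro K _ s k D Q v Ω A hk hs hsn hv hA h
  have h1 := gap_bound A hk hs hsn hA h
  have h2 : (n : ℝ) ^ 2 ≤ 4 * (s : ℝ) ^ 2 * (((q - 1 : ℕ) : ℝ) * (Q * (2 * v + 1) ^ d * D)) := by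
    exact_mod_cast h1.le
  have h3 := hn v hv
  have hn0 : (0 : ℝ) < n := by exact_mod_cast hn1
  have h4 : (n : ℝ) ^ (2 : ℝ) ≤ (n : ℝ) ^ ε * ((s : ℝ) ^ 2 * (Q * D)) := by
    rw [Real.rpow_two]
    calc (n : ℝ) ^ 2 ≤ 4 * (s : ℝ) ^ 2 * (((q - 1 : ℕ) : ℝ) * (Q * (2 * v + 1) ^ d * D)) := h2
      _ = (4 * ((q - 1 : ℕ) : ℝ) * (2 * v + 1) ^ d) * ((s : ℝ) ^ 2 * (Q * D)) := by ring
      _ ≤ (n : ℝ) ^ ε * ((s : ℝ) ^ 2 * (Q * D)) :=
        mul_le_mul_of_nonneg_right h3 (by positivity)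
  rw [Real.rpow_sub hn0, div_le_iff₀ (Real.rpow_pos_of_pos hn0 _)]
  linarith

end Pool.Agent.Results.MP_ddf912_lc.LowDegreeReductions
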