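import Pool.Agent.R562.QH.Fin

set_option autoImplicit false

/-!
# MP_ddf912_lc: reductions from CLIQUE to log-SAT whose output bits are computed with few queries

The output bits of the reduction say, for every question and every clause with at most `d` literals,
whether the clause belongs to the formula.
-/

namespace Pool.Agent.Results.MP_ddf912_lc.QuantumReductions

open Pool.Agent.R562.QH Finset Filter
open scoped Classical

/-- Every output bit is computed, with error probability at most `q`, by a quantum algorithm with `T`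
queries to the adjacency bits. -/
def QuantumBits {n : ℕ} {J Ω : Type} (T : ℕ) (q : ℝ) (R : Ω → (Pairs n → Bool) → J → Bool) : Prop :=
  ∀ ω j, ∃ A : QuantumAlgorithm (Pairs n) T Bool, ∀ x, 1 - q ≤ A.prob x (R ω x j)

/-- Every output bit is computed by a decision tree of depth at most `T` over the adjacency bits. -/
def TreeBits {n : ℕ} {J Ω : Type} (T : ℕ) (R : Ω → (Pairs n → Bool) → J → Bool) : Prop :=
  ∀ ω j, ∃ t : DTree (Pairs n), t.depth ≤ T ∧ ∀ x, t.eval x = R ω x j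

lemma card_J (Q v d : ℕ) : (Fintype.card (Fin Q × Clause v d) : ℝ) = Q * (2 * v + 1) ^ d := by
  rw [Fintype.card_prod, card_clause, Fintype.card_fin]
  push_cast
  ring

lemma sqrt_val : Real.sqrt ((1 / 10 : ℝ) * (1 - 1 / 10)) = 3 / 10 := by
  rw [show ((1 / 10 : ℝ) * (1 - 1 / 10)) = (3 / 10) ^ 2 by norm_num]
  exact Real.sqrt_sq (by norm_num)

/-- from the explicit to the asymptotic form -/
lemma asym {n : ℕ} {ε A M P : ℝ} (hn : 2 ≤ n) (hP : 0 ≤ P) (hM : M * A ≤ (n : ℝ) ^ ε)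
    (h : (n : ℝ) * (n - 1 : ℕ) * 2 ≤ (M * A) * P) : (n : ℝ) ^ (2 - ε) ≤ P := by
  have hn0 : (0 : ℝ) < n := by
    have : 0 < n := by omega
    exact_mod_cast this
  have h1 : (n : ℝ) ≤ (n - 1 : ℕ) * 2 := by
    have : n ≤ (n - 1) * 2 := by omega
    exact_mod_cast this
  have h2 : (n : ℝ) ^ (2 : ℝ) ≤ (n : ℝ) ^ ε * P := by
    rw [Real.rpow_two]
    calc (n : ℝ) ^ 2 = n * n := by ring
      _ ≤ n * ((n - 1 : ℕ) * 2) := mul_le_mul_of_nonneg_left h1 hn0.le
      _ = n * (n - 1 : ℕ) * 2 := by ring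
      _ ≤ (M * A) * P := h
      _ ≤ (n : ℝ) ^ ε * P := mul_le_mul_of_nonneg_right hM hP
  rw [Real.rpow_sub hn0, div_le_iff₀ (Real.rpow_pos_of_pos hn0 _)]
  linarith

/-- **Reductions with few queries per output bit.** -/
theorem result :
    (∀ (n s k Q v d T : ℕ) (Ω : Type) [Fintype Ω] [Nonempty Ω] (e q : ℝ)
      (R : Ω → (Pairs n → Bool) → Fin Q × Clause v d → Bool) (ev : Ω → (Fin Q → Bool) → Bool),
      2 ≤ k → 2 ≤ s → s ≤ n → 0 ≤ q → q ≤ 1 / 2 → Solves s k e R ev → QuantumBits T q R →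
      (1 - 2 * Real.sqrt (q * (1 - q))) * (1 - 2 * e) * (n * (n - 1 : ℕ)) ≤
        2 * (T : ℝ) ^ 2 * (Q * (2 * v + 1) ^ d) * (s * (s - 1 : ℕ))) ∧
    (∀ (n s k Q v d T : ℕ) (Ω : Type) [Fintype Ω] [Nonempty Ω] (e : ℝ)
      (R : Ω → (Pairs n → Bool) → Fin Q × Clause v d → Bool) (ev : Ω → (Fin Q → Bool) → Bool),
      2 ≤ k → 2 ≤ s → s ≤ n → Solves s k e R ev → TreeBits T R →
      (1 - 2 * e) * (n * (n - 1 : ℕ)) ≤ (T : ℝ) * (Q * (2 * v + 1) ^ d) * (s * (s - 1 : ℕ))) ∧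
    (∀ ε : ℝ, 0 < ε → ∀ s k d F G c : ℕ, 2 ≤ k → 2 ≤ s →
      ∀ᶠ n : ℕ in atTop, ∀ (Q v T : ℕ) (Ω : Type) [Fintype Ω] [Nonempty Ω]
        (R : Ω → (Pairs n → Bool) → Fin Q × Clause v d → Bool) (ev : Ω → (Fin Q → Bool) → Bool),
        v ≤ G * (Nat.log 2 (F * n ^ c) + 1) → Solves s k (1 / 3) R ev →
        (QuantumBits T (1 / 10) R → (n : ℝ) ^ (2 - ε) ≤ Q * (T : ℝ) ^ 2) ∧
        (TreeBits T R → (n : ℝ) ^ (2 - ε) ≤ Q * (T : ℝ))) := by
  have hq : ∀ (n s k Q v d T : ℕ) (Ω : Type) [Fintype Ω] [Nonempty Ω] (e q : ℝ)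
      (R : Ω → (Pairs n → Bool) → Fin Q × Clause v d → Bool) (ev : Ω → (Fin Q → Bool) → Bool),
      2 ≤ k → 2 ≤ s → s ≤ n → 0 ≤ q → q ≤ 1 / 2 → Solves s k e R ev → QuantumBits T q R →
      (1 - 2 * Real.sqrt (q * (1 - q))) * (1 - 2 * e) * (n * (n - 1 : ℕ)) ≤
        2 * (T : ℝ) ^ 2 * (Q * (2 * v + 1) ^ d) * (s * (s - 1 : ℕ)) := by
    intro n s k Q v d T Ω _ _ e q R ev hk hs hsn hq0 hq hS hA
    have h1 := quantum (J := Fin Q × Clause v d) hq0 hq hk hs hsn (R := R)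
      (dec := fun ω b => ev ω fun i => decide (Sat fun c => b (i, c))) hS hA
    rw [card_J] at h1
    exact h1
  have ht : ∀ (n s k Q v d T : ℕ) (Ω : Type) [Fintype Ω] [Nonempty Ω] (e : ℝ)
      (R : Ω → (Pairs n → Bool) → Fin Q × Clause v d → Bool) (ev : Ω → (Fin Q → Bool) → Bool),
      2 ≤ k → 2 ≤ s → s ≤ n → Solves s k e R ev → TreeBits T R →
      (1 - 2 * e) * (n * (n - 1 : ℕ)) ≤ (T : ℝ) * (Q * (2 * v + 1) ^ d) * (s * (s - 1 : ℕ)) := by
    intro n s k Q v d T Ω _ _ e R ev hk hs hsn hS hA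
    have h1 := classical (J := Fin Q × Clause v d) hk hs hsn (R := R)
      (dec := fun ω b => ev ω fun i => decide (Sat fun c => b (i, c))) hS hA
    rw [card_J] at h1
    exact h1
  refine ⟨fun n s k Q v d T Ω _ _ => hq n s k Q v d T Ω,
    fun n s k Q v d T Ω _ _ => ht n s k Q v d T Ω, ?_⟩
  intro ε hε s k d F G c hk hs
  filter_upwards [few_clauses ε hε d F G c (30 * (s * (s - 1 : ℕ))), eventually_ge_atTop s,
    eventually_ge_atTop 2] with n hn hsn hn2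
  intro Q v T Ω _ _ R ev hv hS
  refine ⟨fun hA => ?_, fun hA => ?_⟩
  · refine asym hn2 (by positivity) (hn v hv) ?_
    have h1 := hq n s k Q v d T Ω (1 / 3) (1 / 10) R ev hk hs hsn (by norm_num) (by norm_num) hS hA
    rw [sqrt_val] at h1
    linarith
  · refine asym hn2 (by positivity) (hn v hv) ?_
    have h1 := ht n s k Q v d T Ω (1 / 3) R ev hk hs hsn hS hA
    have h2 : 0 ≤ (T : ℝ) * (Q * (2 * v + 1) ^ d) * (s * (s - 1 : ℕ)) := by positivity
    linarith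

end Pool.Agent.Results.MP_ddf912_lc.QuantumReductions
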