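import Pool.Agent.R617.M1R.Final

/-!
# `p-CLIQUE` is not reducible to `p-log-SAT(Γ_{1,d})` by circuits with strong monotone gates

The reductions are computed by circuits with real numbers as values. The gates are arbitrary
nondecreasing real functions of boundedly many inputs, monotone span programs over arbitrary fields,
monotone convex (in particular linear) programs, and a few arbitrary gates, such as NOT gates.
A reduction asks `q` questions and may evaluate the answers by an arbitrary function.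
-/

namespace Pool.Agent.Results.MP_ddf912_lc.RealGateReductions

open Filter Pool.Agent.R617.M1R

theorem result (ε : ℝ) (hε : 0 < ε) (hε1 : ε < 1) (b : ℕ) (hb : 2 ≤ b) :
    ¬ FptReducible b (ε / 126) (2 - ε) ∧
    ∀ d k : ℕ, 8 * 10 ^ 15 * b ≤ ε * k → ∀ G F c : ℕ, ∀ᶠ n : ℕ in atTop, ∀ (m D v q : ℕ)
      (R : Reduction n b m D v d q), v ≤ G * (Nat.log 2 (F * n ^ c) + 1) →
      (R.size : ℝ) ≤ (n : ℝ) ^ (ε * k / (4 * 10 ^ 15 * b)) →
      (m : ℝ) ≤ (n : ℝ) ^ (ε * k / (4 * 10 ^ 15)) → (D : ℝ) ≤ (n : ℝ) ^ (ε / 126) →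
      (((q + 1) * R.freeProd : ℕ) : ℝ) ≤ (n : ℝ) ^ (2 - ε) → ¬ R.Correct k :=
  ⟨not_fpt ε hε hε1 b hb, fun d k hk G F c => quant ε hε hε1 b hb d k hk G F c⟩

end Pool.Agent.Results.MP_ddf912_lc.RealGateReductions
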