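import Pool.Agent.R599.NC.Asym

set_option autoImplicit false

/-!
# MP_ddf912_lc: reductions from CLIQUE to log-SAT computed by small programs over words

The inputs are the adjacency bits of the graphs with `n` vertices. A randomised truth-table reduction
asks whether `Q` formulas with at most `d` literals per clause and with `v` variables are satisfiable;
an arbitrary function `ev ω` evaluates the answers. For every question `i` and every clause `cl` a
branching program of the class below decides whether `cl` belongs to the `i`-th formula.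

The programs (`Program`, `Pool/Agent/Y638/WF/Defs.lean`) are branching programs whose inner nodes test
whether an integral formula is positive. The leaves of these formulas are constants and arbitrary
integral functions of `w` adjacency bits; the gates are sum, product, maximum, minimum, the sign test
`pos`, and gates `sym` of any fan-in whose value is an arbitrary function of the number of positive
inputs. All values of subformulas have absolute value at most `V`. The size of a program is the number
of its inner nodes plus the number of leaves which are not constants plus the number of wires into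
gates `sym`. Boolean formulas over the full binary basis and ordinary branching programs are special
cases (up to a constant factor, with `w = 1` and `V = 1`).

The sum of the sizes of the programs is at most `S`. For all graphs which have a clique with `k`
vertices or have no clique with `s` vertices the answer should be whether there is a clique with `k`
vertices; the error probability is at most `1 / 3`. Here `s` may be any number between `(3 / 4 + δ) k`
and `k`.

Proof. Nechiporuk's method, for gap clique. There are `n ^ (2 - o(1))` disjoint blocks of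
`n ^ o(1)` adjacency bits; each block can ask for `n ^ (2 - o(1))` bits which are encoded in the
rest of the graph: the two indices of the bit are given by two words of a code of large distance
(polynomials of small degree over a prime field) which are sets of vertices on the two sides of the
block. So there are `2 ^ (n ^ (2 - o(1)))` subfunctions of every block, also of random functions with
small error; the outcome of the reduction is a function of the `n ^ o(1) Q` bits which are computed by
the programs, so the number of its subfunctions is at most the product of theirs.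
-/

namespace Pool.Agent.Results.MP_ddf912_lc.WordProgramReductions

open Finset Filter Pool.Agent.R562.QH Pool.Agent.R599.NC
open Pool.Agent.TH697.Form (IsProb)
open Pool.Agent.TH697.Row (ApproximatesOn)
open Pool.Agent.Y638.WF (Program)

open Classical in
/-- There is a randomised truth-table reduction with `Q` questions, from the problem whether a graph
with `n` vertices has a clique with `k` vertices, given that it has one or has no clique with `s`
vertices, to the satisfiability of formulas in `v` variables with at most `d` literals per clause, all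
of whose output bits are computed by programs with sum of sizes at most `S`. -/
def HasReduction (n k s d Q v w V S : ℕ) : Prop :=
  ∃ (Ω : Type) (_ : Fintype Ω) (μ : Ω → ℝ) (size : Fin Q × Clause v d → ℕ)
    (R : Ω → (j : Fin Q × Clause v d) →
      Program (Pairs n) (fun _ => Bool) w 2 V (Promise n k s) (size j))
    (ev : Ω → (Fin Q → Bool) → Bool),
    IsProb μ ∧ ∑ j, size j ≤ S ∧
    ApproximatesOn μ (fun ω x => ev ω fun i => decide (Sat fun cl => (R ω (i, cl)).eval x))
      (Promise n k s) (fun x => decide (¬ (graph x).CliqueFree k))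

/-- **Reductions computed by small programs over words.** -/
theorem result :
    (∀ ε δ : ℝ, 0 < ε → 0 < δ → ∃ k₀ : ℕ, ∀ k, k₀ ≤ k →
      ∀ s : ℕ, (3 / 4 + δ) * k ≤ s → s ≤ k → ∀ d F G c b : ℕ, ∀ᶠ n : ℕ in atTop,
        ∀ Q v w V S : ℕ, 1 ≤ w → 1 ≤ V → V ≤ n ^ b → v ≤ G * (Nat.log 2 (F * n ^ c) + 1) →
          HasReduction n k s d Q v w V S →
          (n : ℝ) ^ (4 - ε) ≤ (w : ℝ) ^ 2 * S + (n : ℝ) ^ 2 * Q) ∧
    (∀ ε δ : ℝ, 0 < ε → 0 < δ → δ ≤ 1 / 4 → ∀ (d c b : ℕ) (f g : ℕ → ℕ),
      ¬ ∀ k s : ℕ, (3 / 4 + δ) * k ≤ s → s ≤ k → ∀ᶠ n : ℕ in atTop,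
        ∃ Q v w V S : ℕ, 1 ≤ w ∧ 1 ≤ V ∧ V ≤ n ^ b ∧
          v ≤ g k * (Nat.log 2 (f k * n ^ c) + 1) ∧ HasReduction n k s d Q v w V S ∧
          (w : ℝ) ^ 2 * S + (n : ℝ) ^ 2 * Q ≤ f k * (n : ℝ) ^ (4 - ε)) := by
  have h1 : ∀ ε δ : ℝ, 0 < ε → 0 < δ → ∃ k₀ : ℕ, ∀ k, k₀ ≤ k →
      ∀ s : ℕ, (3 / 4 + δ) * k ≤ s → s ≤ k → ∀ d F G c b : ℕ, ∀ᶠ n : ℕ in atTop,
        ∀ Q v w V S : ℕ, 1 ≤ w → 1 ≤ V → V ≤ n ^ b → v ≤ G * (Nat.log 2 (F * n ^ c) + 1) →
          HasReduction n k s d Q v w V S →
          (n : ℝ) ^ (4 - ε) ≤ (w : ℝ) ^ 2 * S + (n : ℝ) ^ 2 * Q := by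
    intro ε δ hε hδ
    obtain ⟨k₀, hk₀⟩ := asym ε δ hε hδ
    refine ⟨k₀, fun k hk s hs hsk d F G c b => ?_⟩
    filter_upwards [hk₀ k hk s hs hsk d F G c b] with n hn
    rintro Q v w V S hw hV hVb hv ⟨Ω, hΩ, μ, size, R, ev, hμ, hS, hR⟩
    exact hn Q v w V S hw hV hVb hv Ω μ hμ size hS R ev hR
  refine ⟨h1, ?_⟩
  intro ε δ hε hδ hδ4 d c b f g hcon
  obtain ⟨k₀, hk₀⟩ := h1 (ε / 2) δ (by positivity) hδ
  have hs : (3 / 4 + δ) * (k₀ : ℝ) ≤ k₀ := by
    have : (0 : ℝ) ≤ k₀ := Nat.cast_nonneg _
    nlinarith
  have h2 := hk₀ k₀ le_rfl k₀ hs le_rfl d (f k₀) (g k₀) c b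
  have h3 := hcon k₀ k₀ hs le_rfl
  have h4 : ∀ᶠ n : ℕ in atTop, (f k₀ : ℝ) + 1 ≤ (n : ℝ) ^ (ε / 2) :=
    ((tendsto_rpow_atTop (by positivity : 0 < ε / 2)).comp
      tendsto_natCast_atTop_atTop).eventually_ge_atTop _
  obtain ⟨n, hn2, hn3, hn4, hn1⟩ := (h2.and (h3.and (h4.and (eventually_ge_atTop 1)))).exists
  obtain ⟨Q, v, w, V, S, hw, hV, hVb, hv, hR, hS⟩ := hn3
  have h5 := hn2 Q v w V S hw hV hVb hv hR
  have hn0 : (0 : ℝ) < n := by
    have : 0 < n := hn1
    exact_mod_cast this
  have h6 : (n : ℝ) ^ (4 - ε / 2) = (n : ℝ) ^ (ε / 2) * (n : ℝ) ^ (4 - ε) := by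
    rw [← Real.rpow_add hn0]
    congr 1
    ring
  have h7 : (0 : ℝ) < (n : ℝ) ^ (4 - ε) := by positivity
  have h8 : ((f k₀ : ℝ) + 1) * (n : ℝ) ^ (4 - ε) ≤ (n : ℝ) ^ (ε / 2) * (n : ℝ) ^ (4 - ε) :=
    mul_le_mul_of_nonneg_right hn4 h7.le
  linarith

end Pool.Agent.Results.MP_ddf912_lc.WordProgramReductions
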